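import Pool.Agent.Helper71.JN.SheetE
import Pool.Agent.Helper2.JN.T1CJ
import Pool.Agent.Helper94.SUBW.SLW

/-! Project JN, row T1V: theorem W+ over a number field. -/

set_option autoImplicit false

namespace Pool.Agent.Helper94.JN

open Filter Finset Pool.Agent.Helper70.SUB Pool.Agent.Helper77.SUBK Pool.Agent.Helper70.SUBL
  Pool.Agent.Helper70.SUBW Pool.Agent.Helper71.JN

/-- the cube roots of a number close to `x ^ 3`, weak form -/
theorem nearV (ζ : ℂ) (hζ : ζ ^ 2 + ζ + 1 = 0) {η : ℝ} (h0 : 0 < η) (h4 : η ≤ 1 / 4)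
    {X x y : ℝ} {R : ℂ} (hX : 2 ≤ X) (hXη : 6144 ≤ X ^ η) (hx : x = X ^ 2)
    (hd : |y ^ 2 - x ^ 3| ≤ x) (hR : X / 4 ≤ ‖R‖)
    (hy : ‖(y : ℂ) - R ^ 3‖ ≤ X ^ (2 - 2 * η)) :
    ∃ i : Fin 3, ‖(x : ℂ) - ζ ^ (i : ℕ) * R ^ 2‖ ≤ X ^ (1 - η) := by
  have Xp : 0 < X := by linarith
  have z3 : ζ ^ 3 = 1 := by linear_combination (ζ - 1) * hζ
  have nz : ‖ζ‖ = 1 := by
    have h1 : ‖ζ‖ ^ 3 = 1 := by rw [← norm_pow, z3, norm_one]
    exact (pow_eq_one_iff_of_nonneg (norm_nonneg _) (by norm_num)).1 h1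
  have n1 : 1 ≤ ‖1 - ζ‖ := by
    have h1 : ‖1 - ζ‖ ^ 2 = 3 := by
      rw [← norm_pow]
      have : (1 - ζ) ^ 2 = -(3 * ζ) := by linear_combination hζ
      rw [this, norm_neg, norm_mul, nz]
      norm_num
    by_contra hlt
    push Not at hlt
    nlinarith [norm_nonneg (1 - ζ)]
  obtain ⟨F, hF⟩ : ∃ F : ℂ, F = R ^ 2 := ⟨_, rfl⟩
  rw [← hF]
  have hF0 := norm_nonneg F
  -- the three distances
  have d1 : ‖F‖ ≤ ‖(x : ℂ) - F‖ + ‖(x : ℂ) - ζ * F‖ := by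
    have h1 : (1 - ζ) * F = ((x : ℂ) - ζ * F) - ((x : ℂ) - F) := by ring
    have h2 : ‖(1 - ζ) * F‖ ≤ ‖(x : ℂ) - ζ * F‖ + ‖(x : ℂ) - F‖ := by
      rw [h1]
      exact norm_sub_le _ _
    rw [norm_mul] at h2
    nlinarith
  have d2 : ‖F‖ ≤ ‖(x : ℂ) - F‖ + ‖(x : ℂ) - ζ ^ 2 * F‖ := by
    have h1 : (1 - ζ) * F * ζ ^ 2 = ((x : ℂ) - F) - ((x : ℂ) - ζ ^ 2 * F) := by
      linear_combination (-F) * z3
    have h2 : ‖(1 - ζ) * F * ζ ^ 2‖ ≤ ‖(x : ℂ) - F‖ + ‖(x : ℂ) - ζ ^ 2 * F‖ := by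
      rw [h1]
      exact norm_sub_le _ _
    rw [norm_mul, norm_mul, norm_pow, nz, one_pow, mul_one] at h2
    nlinarith
  have d3 : ‖F‖ ≤ ‖(x : ℂ) - ζ * F‖ + ‖(x : ℂ) - ζ ^ 2 * F‖ := by
    have h1 : (1 - ζ) * F * ζ = ((x : ℂ) - ζ ^ 2 * F) - ((x : ℂ) - ζ * F) := by ring
    have h2 : ‖(1 - ζ) * F * ζ‖ ≤ ‖(x : ℂ) - ζ ^ 2 * F‖ + ‖(x : ℂ) - ζ * F‖ := by
      rw [h1]
      exact norm_sub_le _ _
    rw [norm_mul, norm_mul, nz, mul_one] at h2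
    nlinarith
  -- the size of the product
  have e1 : X ^ (2 - 2 * η) ≤ X ^ 3 := by
    rw [← Real.rpow_natCast]
    exact Real.rpow_le_rpow_of_exponent_le (by linarith) (by push_cast; linarith)
  have x1 : 4 ≤ x := by rw [hx]; nlinarith
  have e2 : |y| ≤ 2 * X ^ 3 := by
    refine abs_le_of_sq_le_sq ?_ (by positivity)
    have h5 := (abs_le.1 hd).2
    have h6 : x ≤ x ^ 3 := by nlinarith [mul_nonneg (by linarith : 0 ≤ x) (by nlinarith :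
      (0 : ℝ) ≤ x ^ 2 - 1)]
    have h7 : x ^ 3 = (X ^ 3) ^ 2 := by rw [hx]; ring
    nlinarith [sq_nonneg (X ^ 3)]
  have e3 : ‖(y : ℂ) + R ^ 3‖ ≤ 5 * X ^ 3 := by
    have h5 : (y : ℂ) + R ^ 3 = 2 * (y : ℂ) - ((y : ℂ) - R ^ 3) := by ring
    rw [h5]
    refine (norm_sub_le _ _).trans ?_
    rw [norm_mul, Complex.norm_real, Real.norm_eq_abs, Complex.norm_ofNat]
    linarith
  have e4 : ‖F ^ 3 - (x : ℂ) ^ 3‖ ≤ 6 * (X ^ 3 * X ^ (2 - 2 * η)) := by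
    have h5 : F ^ 3 - (x : ℂ) ^ 3 =
        ((y ^ 2 - x ^ 3 : ℝ) : ℂ) - ((y : ℂ) - R ^ 3) * ((y : ℂ) + R ^ 3) := by
      rw [hF]
      push_cast
      ring
    have h6 : ‖((y : ℂ) - R ^ 3) * ((y : ℂ) + R ^ 3)‖ ≤ X ^ (2 - 2 * η) * (5 * X ^ 3) := by
      rw [norm_mul]
      exact mul_le_mul hy e3 (norm_nonneg _) (by positivity)
    have h7 : x ≤ X ^ 3 * X ^ (2 - 2 * η) := by
      have h8 : (1 : ℝ) ≤ X ^ (2 - 2 * η) := Real.one_le_rpow (by linarith) (by linarith)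
      have h9 : x ≤ X ^ 3 := by
        rw [hx]
        nlinarith [sq_nonneg X]
      nlinarith [pow_pos Xp 3]
    rw [h5]
    refine (norm_sub_le _ _).trans ?_
    rw [Complex.norm_real, Real.norm_eq_abs]
    nlinarith
  have hprod : ‖(x : ℂ) - F‖ * ‖(x : ℂ) - ζ * F‖ * ‖(x : ℂ) - ζ ^ 2 * F‖ ≤
      6 * (X ^ 3 * X ^ (2 - 2 * η)) := by
    rw [← norm_mul, ← norm_mul]
    have : ((x : ℂ) - F) * ((x : ℂ) - ζ * F) * ((x : ℂ) - ζ ^ 2 * F) = -(F ^ 3 - (x : ℂ) ^ 3) := by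
      linear_combination (-(F : ℂ) * (x : ℂ) ^ 2 + (x : ℂ) * F ^ 2 * ζ) * hζ - F ^ 3 * z3
    rw [this, norm_neg]
    exact e4
  -- size of F
  have sF : X ^ 4 / 256 ≤ ‖F‖ ^ 2 := by
    have h5 := pow_le_pow_left₀ (by linarith) hR 4
    have h6 : ‖F‖ ^ 2 = ‖R‖ ^ 4 := by
      rw [hF, norm_pow]
      ring
    rw [h6]
    calc X ^ 4 / 256 = (X / 4) ^ 4 := by ring
      _ ≤ _ := h5
  -- conclusion
  have fin : ∀ A : ℝ, 0 ≤ A → A * ‖F‖ ^ 2 ≤ 4 * (6 * (X ^ 3 * X ^ (2 - 2 * η))) →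
      A ≤ X ^ (1 - η) := by
    intro A hA hAF
    have g1 : A * (X ^ 4 / 256) ≤ A * ‖F‖ ^ 2 := mul_le_mul_of_nonneg_left sF hA
    have g2 : A * X ^ 4 ≤ 6144 * (X ^ 3 * X ^ (2 - 2 * η)) := by linarith
    have g3 : X ^ 3 * X ^ (2 - 2 * η) = X ^ 4 * X ^ (1 - 2 * η) := by
      rw [← Real.rpow_natCast, ← Real.rpow_natCast, ← Real.rpow_add Xp, ← Real.rpow_add Xp]
      congr 1
      push_cast
      ring
    have g4 : X ^ (1 - η) = X ^ η * X ^ (1 - 2 * η) := by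
      rw [← Real.rpow_add Xp]
      congr 1
      ring
    rw [g3] at g2
    have g5 : A ≤ 6144 * X ^ (1 - 2 * η) := by
      refine le_of_mul_le_mul_right ?_ (pow_pos Xp 4)
      linarith
    rw [g4]
    exact g5.trans (mul_le_mul_of_nonneg_right hXη (by positivity))
  rcases Pool.Agent.Helper2.SUBK.three (norm_nonneg _) (norm_nonneg _) (norm_nonneg _) hF0 d1 d2 d3 hprod with
    h | h | h
  · refine ⟨0, ?_⟩
    have := fin _ (norm_nonneg _) h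
    simpa using this
  · refine ⟨1, ?_⟩
    have := fin _ (norm_nonneg _) h
    simpa using this
  · refine ⟨2, ?_⟩
    have := fin _ (norm_nonneg _) h
    simpa using this

/-- the size of `R` if `R ^ 3` is close to `y` -/
theorem sizeR {X y : ℝ} {R : ℂ} (hX : 64 ≤ X)
    (hd : |y ^ 2 - (X ^ 2) ^ 3| ≤ X ^ 2) (hy : ‖(y : ℂ) - R ^ 3‖ ≤ X ^ 2) :
    X / 4 ≤ ‖R‖ := by
  have Xp : 0 < X := by linarith
  by_contra hlt
  push Not at hlt
  have h1 : ‖R ^ 3‖ ≤ (X / 4) ^ 3 := by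
    rw [norm_pow]
    exact pow_le_pow_left₀ (norm_nonneg _) hlt.le 3
  have h3 : |y| ≤ X ^ 2 + (X / 4) ^ 3 := by
    have h4 : ‖(y : ℂ)‖ ≤ ‖(y : ℂ) - R ^ 3‖ + ‖R ^ 3‖ := by
      have h5 : (y : ℂ) = ((y : ℂ) - R ^ 3) + R ^ 3 := by ring
      conv_lhs => rw [h5]
      exact norm_add_le _ _
    rw [Complex.norm_real, Real.norm_eq_abs] at h4
    linarith
  have h5 : X ^ 2 + (X / 4) ^ 3 ≤ X ^ 3 / 16 := by
    have h6 : 64 * X ^ 2 ≤ X ^ 3 := by nlinarith [pow_pos Xp 2]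
    have h7 : (X / 4) ^ 3 = X ^ 3 / 64 := by ring
    rw [h7]
    have h8 := pow_pos Xp 3
    linarith
  have h6 : y ^ 2 ≤ (X ^ 3 / 16) ^ 2 := by
    rw [← sq_abs]
    exact pow_le_pow_left₀ (abs_nonneg _) (h3.trans h5) 2
  have h7 := (abs_le.1 hd).1
  have h8 : X ^ 2 ≤ X ^ 6 / 64 := by
    have h9 : 64 * X ^ 2 ≤ X ^ 3 := by nlinarith [pow_pos Xp 2]
    have h10 : X ^ 3 ≤ X ^ 6 := pow_le_pow_right₀ (by linarith) (by norm_num)
    have h11 : X ^ 3 * 64 ≤ X ^ 6 := by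
      have : X ^ 6 = X ^ 3 * X ^ 3 := by ring
      rw [this]
      have h12 : 64 ≤ X ^ 3 := by nlinarith [pow_pos Xp 2]
      exact mul_le_mul_of_nonneg_left h12 (by positivity)
    have h13 := pow_pos Xp 2
    linarith
  have h9 := pow_pos Xp 6
  nlinarith

/-- one of `y - R ^ 3`, `y + R ^ 3` is small -/
theorem pickV {X : ℝ} (hX : 64 ≤ X) {x y R : ℂ} (hx : ‖x‖ = X ^ 2)
    (hd : ‖y ^ 2 - x ^ 3‖ ≤ X) (hR : ‖x - R ^ 2‖ ≤ X / 8) :
    ‖y - R ^ 3‖ ≤ X ^ (5 / 2 : ℝ) ∨ ‖y + R ^ 3‖ ≤ X ^ (5 / 2 : ℝ) := by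
  have hX0 : (0 : ℝ) < X := by linarith
  have h5 : X ^ (5 / 2 : ℝ) * X ^ (5 / 2 : ℝ) = X ^ 5 := by
    rw [← Real.rpow_add hX0, ← Real.rpow_natCast]
    norm_num
  have hR2 : ‖R ^ 2‖ ≤ 2 * X ^ 2 := by
    have h1 : R ^ 2 = x - (x - R ^ 2) := by ring
    rw [h1]
    refine (norm_sub_le _ _).trans ?_
    rw [hx]
    nlinarith
  have hfac : ‖x ^ 2 + x * R ^ 2 + (R ^ 2) ^ 2‖ ≤ 7 * X ^ 4 := by
    refine (norm_add_le _ _).trans ((add_le_add_left (norm_add_le _ _) _).trans ?_)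
    rw [norm_pow, norm_mul, norm_pow (R ^ 2), hx]
    have h1 : X ^ 2 * ‖R ^ 2‖ ≤ X ^ 2 * (2 * X ^ 2) :=
      mul_le_mul_of_nonneg_left hR2 (by positivity)
    have h2 : ‖R ^ 2‖ ^ 2 ≤ (2 * X ^ 2) ^ 2 := pow_le_pow_left₀ (norm_nonneg _) hR2 2
    nlinarith
  have hprod : ‖y - R ^ 3‖ * ‖y + R ^ 3‖ ≤ X ^ 5 := by
    rw [← norm_mul]
    have h1 : (y - R ^ 3) * (y + R ^ 3) =
        (y ^ 2 - x ^ 3) + (x - R ^ 2) * (x ^ 2 + x * R ^ 2 + (R ^ 2) ^ 2) := by ring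
    rw [h1]
    refine (norm_add_le _ _).trans ?_
    rw [norm_mul]
    have h2 : ‖x - R ^ 2‖ * ‖x ^ 2 + x * R ^ 2 + (R ^ 2) ^ 2‖ ≤ X / 8 * (7 * X ^ 4) :=
      mul_le_mul hR hfac (norm_nonneg _) (by positivity)
    have h3 : X ≤ X ^ 5 / 8 := by
      have h4 : X ^ 5 = X * X ^ 4 := by ring
      have h6 : (8 : ℝ) ≤ X ^ 4 := by
        have : (64 : ℝ) ^ 4 ≤ X ^ 4 := pow_le_pow_left₀ (by norm_num) hX 4
        norm_num at this
        linarith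
      rw [h4]
      nlinarith
    have h4 : X / 8 * (7 * X ^ 4) = 7 / 8 * X ^ 5 := by ring
    linarith
  by_contra hcon
  rw [not_or, not_le, not_le] at hcon
  have h6 : X ^ (5 / 2 : ℝ) * X ^ (5 / 2 : ℝ) < ‖y - R ^ 3‖ * ‖y + R ^ 3‖ :=
    mul_lt_mul'' hcon.1 hcon.2 (by positivity) (by positivity)
  linarith

/-- the data of one point -/
structure Dat (M : Type) (t : ℕ) where
  /-- coefficients of the numerator -/
  c : Fin t → ℤ
  /-- coefficients of the denominator -/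
  d : Fin t → ℤ
  /-- coefficients of `y ^ 2 - x ^ 3` -/
  e : Fin t → ℤ
  /-- terms of the numerator -/
  a : Fin t → M
  /-- terms of the denominator -/
  b : Fin t → M
  /-- terms of `y ^ 2 - x ^ 3` -/
  f : Fin t → M
  /-- the first coordinate -/
  x : ℤ
  /-- the second coordinate -/
  y : ℤ

theorem T1V (hEXTW : ST_EXTW) (hPFE : ST_PFE) (hSLW : ST_SLW) (hSPW : ST_SPW) (hSPH : ST_SPH)
    (hBRGW : ST_BRGW) : ST_T1V := by
  classical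
  intro M _ _ _ S ψ ζ t ε η B hS hζ hε hη
  obtain ⟨P, hP⟩ := hPFE M S ψ hS
  by_contra hcon
  obtain ⟨s, φ, hxt, hs, hκ⟩ := hEXTW (Dat M t)
    (fun κ b => (∀ i, SV S (b.a i)) ∧ (∀ i, SV S (b.b i)) ∧ (∀ i, SV S (b.f i)) ∧
      (∀ i, |(b.c i : ℝ)| ≤ |(b.x : ℝ)| ^ κ) ∧ (∀ i, |(b.d i : ℝ)| ≤ |(b.x : ℝ)| ^ κ) ∧
      (∀ i, |(b.e i : ℝ)| ≤ |(b.x : ℝ)| ^ κ) ∧
      HBZ ψ (|(b.x : ℝ)| ^ B) (∑ i, (b.c i : M) * b.a i) ∧
      HBZ ψ (|(b.x : ℝ)| ^ B) (∑ i, (b.d i : M) * b.b i) ∧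
      ∑ i, (b.d i : M) * b.b i ≠ 0 ∧
      ∑ i, (b.e i : M) * b.f i = ((b.y ^ 2 - b.x ^ 3 : ℤ) : M) ∧
      (‖(b.x : ℂ) - ψ ((∑ i, (b.c i : M) * b.a i) / ∑ i, (b.d i : M) * b.b i) ^ 2‖
          ≤ |(b.x : ℝ)| ^ (1 / 2 - η) ∨
        ‖(b.y : ℂ) - ψ ((∑ i, (b.c i : M) * b.a i) / ∑ i, (b.d i : M) * b.b i) ^ 3‖
          ≤ |(b.x : ℝ)| ^ (1 - η)) ∧
      b.y ^ 2 ≠ b.x ^ 3)
    (fun b => b.x) (fun b => b.y ^ 2 - b.x ^ 3) ε hε
    (fun κ b hb => sub_ne_zero.2 hb.2.2.2.2.2.2.2.2.2.2.2)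
    (by
      rintro ⟨κ, hκ, C, hC⟩
      exact hcon ⟨κ, hκ, C, fun c d e a b f x y h1 h2 h3 h4 h5 h6 h7 h8 h9 h10 h11 h12 =>
        hC ⟨c, d, e, a, b, f, x, y⟩ ⟨h1, h2, h3, h4, h5, h6, h7, h8, h9, h10, h11, h12⟩⟩)
  set c : Fin t → ℕ → ℤ := fun i j => (s j).c i with hc
  set d : Fin t → ℕ → ℤ := fun i j => (s j).d i with hd
  set e : Fin t → ℕ → ℤ := fun i j => (s j).e i with he
  set a : Fin t → ℕ → M := fun i j => (s j).a i with ha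
  set b : Fin t → ℕ → M := fun i j => (s j).b i with hb
  set f : Fin t → ℕ → M := fun i j => (s j).f i with hf
  set x : ℕ → ℤ := fun j => (s j).x with hx
  set y : ℕ → ℤ := fun j => (s j).y with hy
  set p : ℕ → M := fun j => ∑ i, (c i j : M) * a i j with hp
  set q : ℕ → M := fun j => ∑ i, (d i j : M) * b i j with hq
  have haS : ∀ i j, SV S (a i j) := fun i j => (hs j).1.1 i
  have hbS : ∀ i j, SV S (b i j) := fun i j => (hs j).1.2.1 i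
  have hfS : ∀ i j, SV S (f i j) := fun i j => (hs j).1.2.2.1 i
  have hcB : ∀ i j, |(c i j : ℝ)| ≤ |(x j : ℝ)| ^ (1 / ((j : ℝ) + 1)) :=
    fun i j => (hs j).1.2.2.2.1 i
  have hdB : ∀ i j, |(d i j : ℝ)| ≤ |(x j : ℝ)| ^ (1 / ((j : ℝ) + 1)) :=
    fun i j => (hs j).1.2.2.2.2.1 i
  have heB : ∀ i j, |(e i j : ℝ)| ≤ |(x j : ℝ)| ^ (1 / ((j : ℝ) + 1)) :=
    fun i j => (hs j).1.2.2.2.2.2.1 i
  have hpB : ∀ j, HBZ ψ (|(x j : ℝ)| ^ B) (p j) := fun j => (hs j).1.2.2.2.2.2.2.1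
  have hqB : ∀ j, HBZ ψ (|(x j : ℝ)| ^ B) (q j) := fun j => (hs j).1.2.2.2.2.2.2.2.1
  have hq0 : ∀ j, q j ≠ 0 := fun j => (hs j).1.2.2.2.2.2.2.2.2.1
  have hdd : ∀ j, ∑ i, (e i j : M) * f i j = ((y j ^ 2 - x j ^ 3 : ℤ) : M) :=
    fun j => (hs j).1.2.2.2.2.2.2.2.2.2.1
  have halt : ∀ j, ‖(x j : ℂ) - ψ (p j / q j) ^ 2‖ ≤ |(x j : ℝ)| ^ (1 / 2 - η) ∨
      ‖(y j : ℂ) - ψ (p j / q j) ^ 3‖ ≤ |(x j : ℝ)| ^ (1 - η) :=
    fun j => (hs j).1.2.2.2.2.2.2.2.2.2.2.1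
  have hne3 : ∀ j, y j ^ 2 ≠ x j ^ 3 := fun j => (hs j).1.2.2.2.2.2.2.2.2.2.2.2
  have hx1 : ∀ j, 1 ≤ |(x j : ℝ)| := fun j => (hs j).2.1
  have hdj : ∀ j, |((y j ^ 2 - x j ^ 3 : ℤ) : ℝ)| ≤ |(x j : ℝ)| ^ (1 / (2 + ε)) :=
    fun j => (hs j).2.2
  have hXt : Tendsto (fun j => |(x j : ℝ)|) (φ : Filter ℕ) atTop := hxt
  -- the scale
  set X : ℕ → ℝ := fun j => Real.sqrt |(x j : ℝ)| with hXdef
  have hX2 : ∀ j, X j ^ 2 = |(x j : ℝ)| := fun j => Real.sq_sqrt (abs_nonneg _)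
  have hXX : Tendsto X (φ : Filter ℕ) atTop := Real.tendsto_sqrt_atTop.comp hXt
  have hX0 : ∀ j, 0 < X j := fun j => Real.sqrt_pos.2 (by linarith [hx1 j])
  have hXp : ∀ (j : ℕ) (e : ℝ), |(x j : ℝ)| ^ e = X j ^ (2 * e) := by
    intro j e
    rw [← hX2 j, ← Real.rpow_natCast, ← Real.rpow_mul (hX0 j).le]
    norm_num
  have hbig : ∀ a B : ℝ, 0 < a → ∀ᶠ j in (φ : Filter ℕ), B ≤ X j ^ a := fun a B ha =>
    ((tendsto_rpow_atTop ha).comp hXX).eventually_ge_atTop B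
  have hXl : ∀ᶠ j in (φ : Filter ℕ), (64 : ℝ) ≤ X j := hXX.eventually_ge_atTop _
  -- slow coefficients
  obtain ⟨hconst, _, _, _, _, _, _, _, _, hint, _⟩ := hSLW M S P φ X hS hXX
  have hslow : ∀ e : ℕ → ℤ, (∀ j, |(e j : ℝ)| ≤ |(x j : ℝ)| ^ (1 / ((j : ℝ) + 1))) →
      Slw P φ X (fun j => (e j : M)) := by
    intro e he
    refine hint e fun δ hδ => ?_
    filter_upwards [hκ (δ / 2) (by linarith)] with j hj
    refine (he j).trans ((Real.rpow_le_rpow_of_exponent_le (hx1 j) hj).trans (le_of_eq ?_))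
    rw [hXp]
    congr 1
    ring
  -- moderate sums
  have hHB : ∀ (B : ℝ) (z : ℕ → M), (∀ j, HBZ ψ (|(x j : ℝ)| ^ B) (z j)) →
      ∀ᶠ j in (φ : Filter ℕ), HB P (X j ^ (2 * B)) (z j) := by
    intro B z hz
    refine Eventually.of_forall fun j v hv σ => ?_
    rw [← hXp]
    refine Pool.Agent.Helper94.SUBW.SP_nv hS ?_ hv σ
    obtain ⟨⟨D, h1, h2, h3⟩, h4⟩ := hz j
    exact ⟨D, h1, h2, h3, fun τ => by rw [hP]; exact h4 τ⟩
  have hpM : SpM P φ X p := by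
    refine hSPH M S P φ X p (2 * B) hS hXX ?_ (hHB B p hpB)
    exact ⟨t, fun i j => (c i j : M), a, fun i => hslow _ (hcB i),
      fun i => Eventually.of_forall (haS i), Eventually.of_forall fun j => rfl⟩
  have hqM : SpM P φ X q := by
    refine hSPH M S P φ X q (2 * B) hS hXX ?_ (hHB B q hqB)
    exact ⟨t, fun i j => (d i j : M), b, fun i => hslow _ (hdB i),
      fun i => Eventually.of_forall (hbS i), Eventually.of_forall fun j => rfl⟩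
  have hdM : SpM P φ X (fun j => ((y j ^ 2 - x j ^ 3 : ℤ) : M)) := by
    refine hSPH M S P φ X _ (2 * 1) hS hXX ?_ (hHB 1 _ fun j => ?_)
    · exact ⟨t, fun i j => (e i j : M), f, fun i => hslow _ (heB i),
        fun i => Eventually.of_forall (hfS i), Eventually.of_forall fun j => hdd j⟩
    · rw [Real.rpow_one]
      refine ⟨⟨1, one_ne_zero, by simpa using hx1 j, ?_⟩, fun σ => ?_⟩
      · rw [Nat.cast_one, one_mul]
        exact isIntegral_algebraMap (R := ℤ) (A := M) (x := y j ^ 2 - x j ^ 3)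
      · rw [map_intCast, map_intCast, Complex.norm_intCast]
        refine (hdj j).trans ?_
        conv_rhs => rw [← Real.rpow_one |(x j : ℝ)|]
        refine Real.rpow_le_rpow_of_exponent_le (hx1 j) ?_
        rw [div_le_one (by linarith)]
        linarith
  obtain ⟨_, _, _, _, _, hslSp, _, hSpop, _, _, _, _, _⟩ := hSPW M S P φ X hS hXX
  have hmulc : ∀ (e : M) (z : ℕ → M), SpM P φ X z → SpM P φ X (fun j => e * z j) :=
    fun e z hz => (hSpop (fun _ => e) z (hslSp _ (hconst e)) hz).2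
  -- the sizes
  have hsz : ∀ᶠ j in (φ : Filter ℕ), (2 : ℝ) ≤ x j ∧ |(y j : ℝ) ^ 2 - (x j : ℝ) ^ 3| ≤ x j ∧
      (x j : ℝ) ≤ (y j : ℝ) ^ 2 ∧ (y j : ℝ) ^ 2 ≤ (x j : ℝ) ^ 4 := by
    filter_upwards [hXt.eventually_ge_atTop 2] with j hj
    exact Pool.Agent.Helper2.SUBW.sizes hε hj (hdj j)
  have hζψ : ψ ζ ^ 2 + ψ ζ + 1 = 0 := by
    have h1 := congrArg ψ hζ
    rw [map_add, map_add, map_pow, map_one, map_zero] at h1
    exact h1
  rcases Ultrafilter.eventually_or.1 (Eventually.of_forall halt : ∀ᶠ j in (φ : Filter ℕ), _)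
    with hal | hal
  · -- `x` is close to the square
    set β : ℝ := max 0 (1 - 2 * η) with hβ
    have hβ0 : 0 ≤ β := le_max_left _ _
    have hβ1 : β < 1 := max_lt (by norm_num) (by linarith)
    have hb1 : ∀ᶠ j in (φ : Filter ℕ), ‖(x j : ℂ) - ψ (p j / q j) ^ 2‖ ≤ X j ^ β := by
      filter_upwards [hal, hXl] with j h1 h2
      rw [hXp] at h1
      exact h1.trans (Real.rpow_le_rpow_of_exponent_le (by linarith)
        (by rw [hβ]; exact le_max_of_le_right (by linarith)))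
    have hor : ∀ᶠ j in (φ : Filter ℕ),
        ‖(y j : ℂ) - ψ (p j / q j) ^ 3‖ ≤ X j ^ (5 / 2 : ℝ) ∨
          ‖(y j : ℂ) + ψ (p j / q j) ^ 3‖ ≤ X j ^ (5 / 2 : ℝ) := by
      filter_upwards [hb1, hXl, hbig (1 - β) 8 (by linarith)] with j h1 h2 h3
      refine pickV h2 ?_ ?_ (h1.trans ?_)
      · rw [hX2]
        exact Complex.norm_intCast _
      · have h7 := hdj j
        rw [hXp] at h7
        have h8 : ((y j : ℂ) ^ 2 - (x j : ℂ) ^ 3) = ((y j ^ 2 - x j ^ 3 : ℤ) : ℂ) := by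
          push_cast
          rfl
        rw [h8, Complex.norm_intCast]
        refine h7.trans ?_
        calc X j ^ (2 * (1 / (2 + ε))) ≤ X j ^ (1 : ℝ) := by
              refine Real.rpow_le_rpow_of_exponent_le (by linarith) ?_
              rw [mul_one_div, div_le_one (by linarith)]
              linarith
          _ = X j := Real.rpow_one _
      · have h4 : X j ^ β * X j ^ (1 - β) = X j := by
          rw [← Real.rpow_add (hX0 j), add_sub_cancel, Real.rpow_one]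
        have h5 : X j ^ β * 8 ≤ X j ^ β * X j ^ (1 - β) :=
          mul_le_mul_of_nonneg_left h3 (Real.rpow_nonneg (hX0 j).le _)
        linarith
    have h52 : (3 - 1 / 2 : ℝ) = 5 / 2 := by norm_num
    rcases Ultrafilter.eventually_or.1 hor with h1 | h1
    · refine hBRGW M S P φ x y X p q β ε (1 / 2) hS hε hβ0 hβ1 (by norm_num) hXX
        (Eventually.of_forall hX2) hpM hqM hdM ?_
      filter_upwards [h1, hb1] with j h2 h3
      refine ⟨hq0 j, hne3 j, hdj j, ?_, ?_⟩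
      · rw [hP, map_sub, map_pow, map_intCast]
        exact h3
      · rw [hP, map_sub, map_pow, map_intCast, h52]
        exact h2
    · refine hBRGW M S P φ x y X (fun j => -1 * p j) q β ε (1 / 2) hS hε hβ0 hβ1 (by norm_num)
        hXX (Eventually.of_forall hX2) (hmulc _ p hpM) hqM hdM ?_
      filter_upwards [h1, hb1] with j h2 h3
      refine ⟨hq0 j, hne3 j, hdj j, ?_, ?_⟩
      · have h4 : (-1 * p j / q j) ^ 2 = (p j / q j) ^ 2 := by ring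
        rw [hP, h4, map_sub, map_pow, map_intCast]
        exact h3
      · have h4 : (-1 * p j / q j) ^ 3 = -(p j / q j) ^ 3 := by ring
        rw [hP, h4, map_sub, map_neg, map_pow, map_intCast, h52, sub_neg_eq_add]
        exact h2
  · -- `y` is close to the cube
    set η' : ℝ := min η (1 / 4) with hη'
    have hη0 : 0 < η' := lt_min hη (by norm_num)
    have hη1 : η' ≤ η := min_le_left _ _
    have hη4 : η' ≤ 1 / 4 := min_le_right _ _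
    have hdist : ∀ᶠ j in (φ : Filter ℕ), ‖((y j : ℝ) : ℂ) - ψ (p j / q j) ^ 3‖ ≤
        X j ^ (2 - 2 * η') := by
      filter_upwards [hal, hXl] with j h1 h2
      rw [hXp] at h1
      refine le_trans (le_of_eq ?_) (h1.trans (Real.rpow_le_rpow_of_exponent_le (by linarith)
        (by linarith)))
      push_cast
      rfl
    have hdist2 : ∀ᶠ j in (φ : Filter ℕ), ‖((y j : ℝ) : ℂ) - ψ (p j / q j) ^ 3‖ ≤ X j ^ 2 := by
      filter_upwards [hdist, hXl] with j h1 h2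
      refine h1.trans ?_
      rw [← Real.rpow_natCast]
      exact Real.rpow_le_rpow_of_exponent_le (by linarith) (by push_cast; linarith)
    have hxX : ∀ᶠ j in (φ : Filter ℕ), (x j : ℝ) = X j ^ 2 := by
      filter_upwards [hsz] with j h1
      rw [hX2, abs_of_nonneg (by linarith [h1.1])]
    have hRsz : ∀ᶠ j in (φ : Filter ℕ), X j / 4 ≤ ‖ψ (p j / q j)‖ := by
      filter_upwards [hsz, hdist2, hXl, hxX] with j h1 h2 h3 h4
      have h5 := h1.2.1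
      rw [h4] at h5
      exact sizeR h3 h5 h2
    have hana : ∀ᶠ j in (φ : Filter ℕ), ∃ i : Fin 3,
        ‖((x j : ℝ) : ℂ) - ψ ζ ^ (i : ℕ) * ψ (p j / q j) ^ 2‖ ≤ X j ^ (1 - η') := by
      filter_upwards [hsz, hRsz, hdist, hbig η' 6144 hη0, hXl, hxX] with j h1 h2 h3 h4 h5 h6
      exact nearV (ψ ζ) hζψ hη0 hη4 (by linarith) h4 h6 h1.2.1 h2 h3
    have hidx : ∀ j, ∃ i : Fin 3, (∃ i : Fin 3,
        ‖((x j : ℝ) : ℂ) - ψ ζ ^ (i : ℕ) * ψ (p j / q j) ^ 2‖ ≤ X j ^ (1 - η')) →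
        ‖((x j : ℝ) : ℂ) - ψ ζ ^ (i : ℕ) * ψ (p j / q j) ^ 2‖ ≤ X j ^ (1 - η') := by
      intro j
      by_cases h : ∃ i : Fin 3,
          ‖((x j : ℝ) : ℂ) - ψ ζ ^ (i : ℕ) * ψ (p j / q j) ^ 2‖ ≤ X j ^ (1 - η')
      · obtain ⟨i, hi⟩ := h
        exact ⟨i, fun _ => hi⟩
      · exact ⟨0, fun h' => absurd h' h⟩
    choose ι hι using hidx
    obtain ⟨i0, hi0⟩ := Pool.Agent.Helper2.SUBW.ucon φ ι
    have z3 : ζ ^ 3 = 1 := by linear_combination (ζ - 1) * hζ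
    set z : M := ζ ^ (i0 : ℕ) with hz
    have zz : z ^ 3 = 1 := by rw [hz, ← pow_mul, mul_comm, pow_mul, z3, one_pow]
    refine hBRGW M S P φ x y X (fun j => z ^ 2 * p j) q (1 - η') ε 1 hS hε
      (by linarith) (by linarith) one_pos hXX (Eventually.of_forall hX2) (hmulc _ p hpM) hqM
      hdM ?_
    filter_upwards [hana, hi0, hdist2] with j h1 h2 h4
    have h6 := hι j h1
    rw [h2] at h6
    refine ⟨hq0 j, hne3 j, hdj j, ?_, ?_⟩
    · rw [hP]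
      refine le_trans (le_of_eq ?_) h6
      congr 1
      have h7 : (z ^ 2 * p j / q j) ^ 2 = z * (p j / q j) ^ 2 := by
        have h8 : (z ^ 2 * p j / q j) ^ 2 = z ^ 3 * z * (p j / q j) ^ 2 := by ring
        rw [h8, zz, one_mul]
      rw [h7, map_sub, map_mul, map_intCast, hz, map_pow, map_pow]
      push_cast
      rfl
    · have h7 : (z ^ 2 * p j / q j) ^ 3 = (p j / q j) ^ 3 := by
        have h8 : (z ^ 2 * p j / q j) ^ 3 = z ^ 3 * z ^ 3 * (p j / q j) ^ 3 := by ring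
        rw [h8, zz, one_mul, one_mul]
      rw [hP, h7, map_sub, map_intCast, map_pow]
      have h8 : X j ^ 2 = X j ^ ((3 : ℝ) - 1) := by
        rw [← Real.rpow_natCast]
        congr 1
        norm_num
      rw [← h8]
      refine le_trans (le_of_eq ?_) h4
      push_cast
      rfl

end Pool.Agent.Helper94.JN
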